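import Pool.Agent.W842.BV.Robust
import Pool.Agent.W842.BV.Stms2

/-!
# Families of separated sets: incompressibility, robust and local forms, power saving
-/

set_option autoImplicit false

namespace Pool.Agent.W842.BVR

open Finset Pool.Agent.W842.BV

/-- the `0/1` matrix of a family of sets -/
noncomputable def mat {n : ℕ} (N : Fin n → Finset (Fin n)) (b w : Fin n) : ℝ :=
  if w ∈ N b then 1 else 0

/-- separation: two members differ in a positive proportion of their elements -/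
def Sep {n : ℕ} (R : ℕ) (N : Fin n → Finset (Fin n)) : Prop :=
  ∀ b b' : Fin n, b ≠ b' →
    (N b).card + (N b').card ≤ R * (symmDiff (N b) (N b')).card + R ^ 2

theorem card_le_n {n : ℕ} (A : Finset (Fin n)) : A.card ≤ n := by
  have := Finset.card_le_univ A
  simpa using this

theorem mat_dist {n : ℕ} (N : Fin n → Finset (Fin n)) (b b' : Fin n) :
    ∑ w, |mat N b w - mat N b' w| = ((symmDiff (N b) (N b')).card : ℝ) := by
  have h : ∀ w, |mat N b w - mat N b' w| =
      if w ∈ symmDiff (N b) (N b') then (1 : ℝ) else 0 := by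
    intro w
    unfold mat
    by_cases h1 : w ∈ N b <;> by_cases h2 : w ∈ N b' <;>
      simp [h1, h2, Finset.mem_symmDiff]
  rw [Finset.sum_congr rfl (fun w _ => h w)]
  rw [Finset.sum_ite_mem, Finset.univ_inter, Finset.sum_const, nsmul_eq_mul, mul_one]

/-- One class of equal rows. -/
theorem incomp_class {n R : ℕ} {N : Fin n → Finset (Fin n)} (hS : Sep R N)
    (P : Finset (Fin n)) (g : Fin n → ℝ) :
    ∑ b ∈ P, ((N b).card : ℝ) ≤
      R * (∑ b ∈ P, ∑ w, |mat N b w - g w|) + (R : ℝ) ^ 2 * P.card + n := by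
  rcases Nat.lt_or_ge P.card 2 with hP | hP
  · have h1 : ∑ b ∈ P, ((N b).card : ℝ) ≤ n := by
      have h2 : ∑ b ∈ P, ((N b).card : ℝ) ≤ ∑ b ∈ P, (n : ℝ) := by
        apply Finset.sum_le_sum
        intro b _
        exact_mod_cast card_le_n (N b)
      rw [Finset.sum_const, nsmul_eq_mul] at h2
      have h3 : (P.card : ℝ) ≤ 1 := by exact_mod_cast (by omega : P.card ≤ 1)
      have h4 : (P.card : ℝ) * n ≤ 1 * n := mul_le_mul_of_nonneg_right h3 (Nat.cast_nonneg n)
      linarith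
    have h5 : 0 ≤ ∑ b ∈ P, ∑ w, |mat N b w - g w| :=
      Finset.sum_nonneg (fun b _ => Finset.sum_nonneg (fun w _ => abs_nonneg _))
    have h6 : 0 ≤ (R : ℝ) * (∑ b ∈ P, ∑ w, |mat N b w - g w|) := by positivity
    have h7 : 0 ≤ (R : ℝ) ^ 2 * P.card := by positivity
    linarith
  · obtain ⟨m, hm⟩ : ∃ m : ℝ, m = (P.card : ℝ) - 1 := ⟨_, rfl⟩
    have hm1 : 1 ≤ m := by
      have : (2 : ℝ) ≤ P.card := by exact_mod_cast hP
      rw [hm]
      linarith
    obtain ⟨X, hXd⟩ : ∃ X : Fin n → ℝ, ∀ b, X b = ∑ w, |mat N b w - g w| := ⟨_, fun _ => rfl⟩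
    have hXs : ∑ b ∈ P, ∑ w, |mat N b w - g w| = ∑ b ∈ P, X b :=
      Finset.sum_congr rfl (fun b _ => (hXd b).symm)
    rw [hXs]
    have hpair : ∀ b ∈ P, ∀ b' ∈ P.erase b,
        ((N b).card : ℝ) + ((N b').card : ℝ) ≤ R * (X b + X b') + (R : ℝ) ^ 2 := by
      intro b hb b' hb'
      have hne : b ≠ b' := (Finset.ne_of_mem_erase hb').symm
      have h1 := hS b b' hne
      have h2 : ((N b).card : ℝ) + ((N b').card : ℝ) ≤
          R * ((symmDiff (N b) (N b')).card : ℝ) + (R : ℝ) ^ 2 := by exact_mod_cast h1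
      have h3 : ((symmDiff (N b) (N b')).card : ℝ) ≤ X b + X b' := by
        rw [← mat_dist, hXd, hXd, ← Finset.sum_add_distrib]
        apply Finset.sum_le_sum
        intro w _
        have h4 : mat N b w - mat N b' w = (mat N b w - g w) - (mat N b' w - g w) := by ring
        rw [h4]
        exact abs_sub _ _
      have h5 : (R : ℝ) * ((symmDiff (N b) (N b')).card : ℝ) ≤ R * (X b + X b') :=
        mul_le_mul_of_nonneg_left h3 (Nat.cast_nonneg R)
      linarith
    have hsum : ∑ b ∈ P, ∑ b' ∈ P.erase b, (((N b).card : ℝ) + ((N b').card : ℝ)) ≤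
        ∑ b ∈ P, ∑ b' ∈ P.erase b, (R * (X b + X b') + (R : ℝ) ^ 2) :=
      Finset.sum_le_sum (fun b hb => Finset.sum_le_sum (fun b' hb' => hpair b hb b' hb'))
    have hcard : ∀ b ∈ P, (((P.erase b).card : ℕ) : ℝ) = m := by
      intro b hb
      rw [Finset.card_erase_of_mem hb, hm, Nat.cast_sub (by omega)]
      simp
    have hA : ∀ X : Fin n → ℝ, ∑ b ∈ P, ∑ b' ∈ P.erase b, (X b + X b') =
        2 * m * ∑ b ∈ P, X b := by
      intro X
      have hX2 : ∑ b ∈ P, ∑ b' ∈ P.erase b, X b' = m * ∑ b ∈ P, X b := by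
        have h1 : ∀ b ∈ P, ∑ b' ∈ P.erase b, X b' = (∑ b' ∈ P, X b') - X b := by
          intro b hb
          rw [← Finset.add_sum_erase P X hb]
          ring
        rw [Finset.sum_congr rfl h1, Finset.sum_sub_distrib, Finset.sum_const, nsmul_eq_mul, hm]
        ring
      have hX1 : ∑ b ∈ P, ∑ b' ∈ P.erase b, X b = m * ∑ b ∈ P, X b := by
        rw [Finset.mul_sum]
        apply Finset.sum_congr rfl
        intro b hb
        rw [Finset.sum_const, nsmul_eq_mul, hcard b hb]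
      have h1 : ∑ b ∈ P, ∑ b' ∈ P.erase b, (X b + X b') =
          ∑ b ∈ P, ∑ b' ∈ P.erase b, X b + ∑ b ∈ P, ∑ b' ∈ P.erase b, X b' := by
        rw [← Finset.sum_add_distrib]
        apply Finset.sum_congr rfl
        intro b _
        rw [← Finset.sum_add_distrib]
      rw [h1, hX1, hX2]
      ring
    have hR : ∑ b ∈ P, ∑ b' ∈ P.erase b, (R * (X b + X b') + (R : ℝ) ^ 2) =
        m * (2 * R * (∑ b ∈ P, X b) + (R : ℝ) ^ 2 * P.card) := by
      have h1 : ∑ b ∈ P, ∑ b' ∈ P.erase b, (R * (X b + X b') + (R : ℝ) ^ 2) =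
          R * (∑ b ∈ P, ∑ b' ∈ P.erase b, (X b + X b')) +
            ∑ b ∈ P, ∑ b' ∈ P.erase b, (R : ℝ) ^ 2 := by
        rw [Finset.mul_sum, ← Finset.sum_add_distrib]
        apply Finset.sum_congr rfl
        intro b _
        rw [Finset.mul_sum, ← Finset.sum_add_distrib]
      have h2 : ∑ b ∈ P, ∑ b' ∈ P.erase b, (R : ℝ) ^ 2 = m * ((R : ℝ) ^ 2 * P.card) := by
        have h3 : ∀ b ∈ P, ∑ b' ∈ P.erase b, (R : ℝ) ^ 2 = m * (R : ℝ) ^ 2 := by
          intro b hb
          rw [Finset.sum_const, nsmul_eq_mul, hcard b hb]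
        rw [Finset.sum_congr rfl h3, Finset.sum_const, nsmul_eq_mul]
        ring
      rw [h1, hA, h2]
      ring
    have hLL := hA (fun b => ((N b).card : ℝ))
    rw [hLL, hR] at hsum
    have h8 : m * (2 * ∑ b ∈ P, ((N b).card : ℝ)) ≤
        m * (2 * R * (∑ b ∈ P, X b) + (R : ℝ) ^ 2 * P.card) := by
      calc m * (2 * ∑ b ∈ P, ((N b).card : ℝ)) = 2 * m * ∑ b ∈ P, ((N b).card : ℝ) := by ring
        _ ≤ _ := hsum
    have h9 := le_of_mul_le_mul_left h8 (by linarith)
    have h10 : (0 : ℝ) ≤ n := Nat.cast_nonneg n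
    have h11 : (0 : ℝ) ≤ (R : ℝ) ^ 2 * P.card := by positivity
    linarith

/-- Incompressibility for an arbitrary set `B` of rows. -/
theorem incomp {n R M : ℕ} {N : Fin n → Finset (Fin n)} (hS : Sep R N)
    (B : Finset (Fin n)) (f : Fin n → Fin M) (g : Fin M → Fin n → ℝ) :
    ∑ b ∈ B, ((N b).card : ℝ) ≤
      R * (∑ b ∈ B, ∑ w, |mat N b w - g (f b) w|) + (R : ℝ) ^ 2 * B.card + M * n := by
  have h1 : ∀ i : Fin M, ∑ b ∈ B.filter (fun b => f b = i), ((N b).card : ℝ) ≤
      R * (∑ b ∈ B.filter (fun b => f b = i), ∑ w, |mat N b w - g (f b) w|) +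
        (R : ℝ) ^ 2 * (B.filter (fun b => f b = i)).card + n := by
    intro i
    have h2 := incomp_class hS (B.filter (fun b => f b = i)) (g i)
    have h3 : ∑ b ∈ B.filter (fun b => f b = i), ∑ w, |mat N b w - g (f b) w| =
        ∑ b ∈ B.filter (fun b => f b = i), ∑ w, |mat N b w - g i w| := by
      apply Finset.sum_congr rfl
      intro b hb
      rw [(Finset.mem_filter.1 hb).2]
    rw [h3]
    exact h2
  have h4 := Finset.sum_le_sum (s := (univ : Finset (Fin M))) (fun i _ => h1 i)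
  have h5 : ∑ i : Fin M, ∑ b ∈ B.filter (fun b => f b = i), ((N b).card : ℝ) =
      ∑ b ∈ B, ((N b).card : ℝ) :=
    Finset.sum_fiberwise B f _
  have h6 : ∑ i : Fin M, (∑ b ∈ B.filter (fun b => f b = i), ∑ w, |mat N b w - g (f b) w|) =
      ∑ b ∈ B, ∑ w, |mat N b w - g (f b) w| :=
    Finset.sum_fiberwise B f _
  have h7 : ∑ i : Fin M, (((B.filter (fun b => f b = i)).card : ℕ) : ℝ) = B.card := by
    have h8 : ∑ i : Fin M, (B.filter (fun b => f b = i)).card = B.card := by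
      have h9 := Finset.card_eq_sum_card_fiberwise (f := f) (s := B)
        (t := (univ : Finset (Fin M))) (fun _ _ => Finset.mem_coe.2 (Finset.mem_univ _))
      exact h9.symm
    exact_mod_cast h8
  rw [h5] at h4
  refine h4.trans (le_of_eq ?_)
  rw [Finset.sum_add_distrib, Finset.sum_add_distrib, ← Finset.mul_sum, ← Finset.mul_sum, h6, h7,
    Finset.sum_const, nsmul_eq_mul, Finset.card_univ, Fintype.card_fin]

/-- Robust local form: `q` bounds from below the sizes, `B` is any set of rows. -/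
theorem pack_robust (hH : S_HAUS) {n R : ℕ} (hR : 1 ≤ R) {N : Fin n → Finset (Fin n)}
    (hS : Sep R N) {ε : ℝ} (hε : 0 < ε) (hn1 : 2 * (R : ℝ) ^ 2 ≤ ε * n)
    (hn2 : 8 * (R : ℝ) ≤ ε * n) (B : Finset (Fin n)) (hB5 : 5 ≤ B.card)
    (hdeg : ∀ b ∈ B, ε * n ≤ ((N b).card : ℝ)) (M : Fin n → Finset (Fin n))
    (hM : ((∑ b ∈ B, (symmDiff (N b) (M b)).card : ℕ) : ℝ) ≤ ε / (16 * R) * n * B.card) :
    (B.card : ℝ) / 2 ≤ (22 / (ε / (8 * R))) ^ (B.image M).vcDim := by
  have hR0 : (0 : ℝ) < R := by exact_mod_cast hR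
  obtain ⟨ρ, hρ⟩ : ∃ ρ : ℝ, ρ = ε / (8 * R) := ⟨_, rfl⟩
  have hρ0 : 0 < ρ := by rw [hρ]; positivity
  have hB5' : (5 : ℝ) ≤ B.card := by exact_mod_cast hB5
  have hBne : B.Nonempty := Finset.card_pos.1 (by omega)
  have hn0 : (0 : ℝ) < n := by
    obtain ⟨b, _⟩ := hBne
    have := b.pos
    exact_mod_cast this
  have g2 : 1 ≤ ρ * n := by
    rw [hρ, div_mul_eq_mul_div, le_div_iff₀ (by positivity)]
    linarith
  have hsep : ∀ b ∈ B, ∀ b' ∈ B, b ≠ b' →
      4 * ρ * n ≤ ((symmDiff (N b) (N b')).card : ℝ) := by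
    intro b hb b' hb' hne
    have h1 := hS b b' hne
    have h2 : ((N b).card : ℝ) + ((N b').card : ℝ) ≤
        R * ((symmDiff (N b) (N b')).card : ℝ) + (R : ℝ) ^ 2 := by exact_mod_cast h1
    have h3 := hdeg b hb
    have h3' := hdeg b' hb'
    have h4 : R * (4 * ρ * n) = ε * n / 2 := by rw [hρ]; field_simp; ring
    have h5 : R * (4 * ρ * n) ≤ R * ((symmDiff (N b) (N b')).card : ℝ) := by linarith
    exact le_of_mul_le_mul_left h5 hR0
  obtain ⟨B', hB'⟩ : ∃ B' : Finset (Fin n),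
      B' = B.filter (fun b => ((symmDiff (N b) (M b)).card : ℝ) ≤ ρ * n) := ⟨_, rfl⟩
  have hbad : ((B.filter (fun b => ¬ ((symmDiff (N b) (M b)).card : ℝ) ≤ ρ * n)).card : ℝ) ≤
      B.card / 2 := by
    have h1 : ((B.filter (fun b => ¬ ((symmDiff (N b) (M b)).card : ℝ) ≤ ρ * n)).card : ℝ) *
        (ρ * n) ≤ ε / (16 * R) * n * B.card := by
      refine le_trans ?_ hM
      push_cast
      calc ((B.filter (fun b => ¬ ((symmDiff (N b) (M b)).card : ℝ) ≤ ρ * n)).card : ℝ) *
            (ρ * n)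
          = ∑ b ∈ B.filter (fun b => ¬ ((symmDiff (N b) (M b)).card : ℝ) ≤ ρ * n), (ρ * n) := by
            rw [Finset.sum_const, nsmul_eq_mul]
        _ ≤ ∑ b ∈ B.filter (fun b => ¬ ((symmDiff (N b) (M b)).card : ℝ) ≤ ρ * n),
            ((symmDiff (N b) (M b)).card : ℝ) := by
            apply Finset.sum_le_sum
            intro b hb
            rw [Finset.mem_filter] at hb
            exact le_of_lt (not_le.1 hb.2)
        _ ≤ ∑ b ∈ B, ((symmDiff (N b) (M b)).card : ℝ) := by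
            apply Finset.sum_le_sum_of_subset_of_nonneg (Finset.filter_subset _ _)
            intro b _ _
            exact Nat.cast_nonneg _
    have h2 : (B.card / 2 : ℝ) * (ρ * n) = ε / (16 * R) * n * B.card := by
      rw [hρ]; field_simp; ring
    rw [← h2] at h1
    exact le_of_mul_le_mul_right h1 (by positivity)
  have hB'card : (B.card : ℝ) / 2 ≤ B'.card := by
    have h1 := Finset.card_filter_add_card_filter_not (s := B)
      (fun b => ((symmDiff (N b) (M b)).card : ℝ) ≤ ρ * n)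
    rw [← hB'] at h1
    have h2 : (B'.card : ℝ) +
        ((B.filter (fun b => ¬ ((symmDiff (N b) (M b)).card : ℝ) ≤ ρ * n)).card : ℝ) =
        B.card := by exact_mod_cast h1
    linarith
  have hsep' : ∀ b ∈ B', ∀ b' ∈ B', b ≠ b' →
      2 * ρ * n ≤ ((symmDiff (M b) (M b')).card : ℝ) := by
    intro b hb b' hb' hne
    rw [hB', Finset.mem_filter] at hb hb'
    have h1 := hsep b hb.1 b' hb'.1 hne
    have h2 := card_symmDiff_triangle (N b) (M b) (N b')
    have h3 := card_symmDiff_triangle (M b) (M b') (N b')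
    rw [symmDiff_comm (M b') (N b')] at h3
    have h4 : ((symmDiff (N b) (N b')).card : ℝ) ≤
        ((symmDiff (N b) (M b)).card : ℝ) + (((symmDiff (M b) (M b')).card : ℝ) +
          ((symmDiff (N b') (M b')).card : ℝ)) := by
      have : (symmDiff (N b) (N b')).card ≤ (symmDiff (N b) (M b)).card +
          ((symmDiff (M b) (M b')).card + (symmDiff (N b') (M b')).card) := by omega
      exact_mod_cast this
    linarith [hb.2, hb'.2]
  obtain ⟨r, hr⟩ : ∃ r : ℕ, r = ⌈ρ * n⌉₊ := ⟨_, rfl⟩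
  have hr1 : ρ * n ≤ r := by
    rw [hr]
    exact Nat.le_ceil _
  have hr2 : (r : ℝ) ≤ 2 * ρ * n := by
    have := Nat.ceil_lt_add_one (show (0 : ℝ) ≤ ρ * n by positivity)
    rw [← hr] at this
    linarith
  have hr0 : 1 ≤ r := by
    have : (1 : ℝ) ≤ r := by linarith
    exact_mod_cast this
  have hinj : Set.InjOn M B' := by
    intro b hb b' hb' h
    by_contra hne
    have h5 := hsep' b hb b' hb' hne
    rw [h, symmDiff_self] at h5
    simp at h5
    linarith
  have hcard : (B'.image M).card = B'.card := Finset.card_image_of_injOn hinj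
  have hrn : r ≤ n := by
    have h1 : 1 < B'.card := by
      have : (1 : ℝ) < B'.card := by linarith
      exact_mod_cast this
    obtain ⟨b, hb, b', hb', hne⟩ := Finset.one_lt_card.1 h1
    have h2 := hsep' b hb b' hb' hne
    have h3 : (symmDiff (M b) (M b')).card ≤ n := card_le_n _
    have h4 : (r : ℝ) ≤ n := by
      have : ((symmDiff (M b) (M b')).card : ℝ) ≤ n := by exact_mod_cast h3
      linarith
    exact_mod_cast h4
  have hpack : (B'.card : ℝ) ≤ (22 * n / r) ^ (B'.image M).vcDim := by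
    rw [← hcard]
    have h6 := hH (Fin n) (B'.image M) r hr0 ?_ (by simpa using hrn)
    · simpa using h6
    · intro A hA A' hA' hne
      obtain ⟨b, hb, rfl⟩ := Finset.mem_image.1 hA
      obtain ⟨b', hb', rfl⟩ := Finset.mem_image.1 hA'
      have h7 := hsep' b hb b' hb' (fun h => hne (by rw [h]))
      have : (r : ℝ) ≤ ((symmDiff (M b) (M b')).card : ℝ) := hr2.trans h7
      exact_mod_cast this
  have hrpos : (0 : ℝ) < r := by exact_mod_cast hr0
  have hbase : 22 * (n : ℝ) / r ≤ 22 / ρ := by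
    rw [div_le_div_iff₀ hrpos hρ0]
    linarith
  have hone : (1 : ℝ) ≤ 22 * n / r := by
    rw [le_div_iff₀ hrpos]
    have : (r : ℝ) ≤ n := by exact_mod_cast hrn
    linarith
  rw [← hρ]
  calc (B.card : ℝ) / 2 ≤ B'.card := hB'card
    _ ≤ (22 * n / r) ^ (B'.image M).vcDim := hpack
    _ ≤ (22 / ρ) ^ (B'.image M).vcDim := by gcongr
    _ ≤ (22 / ρ) ^ (B.image M).vcDim := by
        apply pow_le_pow_right₀ (hone.trans hbase)
        apply Finset.vcDim_mono
        apply Finset.image_subset_image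
        rw [hB']
        exact Finset.filter_subset _ _

/-- The local form with `c log |B|`. -/
theorem local_log (hH : S_HAUS) {R : ℕ} (hR : 1 ≤ R) {ε : ℝ} (hε : 0 < ε) :
    ∃ c : ℝ, 0 < c ∧ ∀ (n : ℕ) (N : Fin n → Finset (Fin n)), Sep R N →
      2 * (R : ℝ) ^ 2 ≤ ε * n → 8 * (R : ℝ) ≤ ε * n →
      ∀ B : Finset (Fin n), 5 ≤ B.card → (∀ b ∈ B, ε * n ≤ ((N b).card : ℝ)) →
        ∀ M : Fin n → Finset (Fin n), ((B.image M).vcDim : ℝ) ≤ c * Real.log B.card →
        ε / (16 * R) * n * B.card < ((∑ b ∈ B, (symmDiff (N b) (M b)).card : ℕ) : ℝ) := by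
  have hR0 : (0 : ℝ) < R := by exact_mod_cast hR
  obtain ⟨ρ, hρ⟩ : ∃ ρ : ℝ, ρ = ε / (8 * R) := ⟨_, rfl⟩
  have hρ0 : 0 < ρ := by rw [hρ]; positivity
  obtain ⟨L, hLdef⟩ : ∃ L : ℝ, L = max 1 (Real.log (22 / ρ)) := ⟨_, rfl⟩
  have hL1 : 1 ≤ L := by rw [hLdef]; exact le_max_left _ _
  refine ⟨1 / (2 * L), by positivity, ?_⟩
  intro n N hS hn1 hn2 B hB5 hdeg M hv
  by_contra hcon
  push Not at hcon
  have h0 := pack_robust hH hR hS hε hn1 hn2 B hB5 hdeg M hcon
  rw [← hρ] at h0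
  have hB5' : (5 : ℝ) ≤ B.card := by exact_mod_cast hB5
  have hB0 : (0 : ℝ) < B.card := by linarith
  have hfin : (B.card : ℝ) / 2 ≤ Real.exp (Real.log B.card / 2) := by
    calc (B.card : ℝ) / 2 ≤ (22 / ρ) ^ (B.image M).vcDim := h0
      _ = Real.exp ((B.image M).vcDim * Real.log (22 / ρ)) := by
          rw [mul_comm, Real.exp_mul, Real.exp_log (by positivity), Real.rpow_natCast]
      _ ≤ Real.exp (Real.log B.card / 2) := by
          apply Real.exp_le_exp.2
          calc ((B.image M).vcDim : ℝ) * Real.log (22 / ρ)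
              ≤ ((B.image M).vcDim : ℝ) * L := by
                apply mul_le_mul_of_nonneg_left _ (Nat.cast_nonneg _)
                rw [hLdef]
                exact le_max_right _ _
            _ ≤ (1 / (2 * L) * Real.log B.card) * L := by
                apply mul_le_mul_of_nonneg_right hv (by linarith)
            _ = Real.log B.card / 2 := by field_simp
  have hsq : Real.exp (Real.log B.card / 2) * Real.exp (Real.log B.card / 2) = B.card := by
    rw [← Real.exp_add, add_halves, Real.exp_log hB0]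
  have h9 : ((B.card : ℝ) / 2) * ((B.card : ℝ) / 2) ≤ B.card := by
    calc ((B.card : ℝ) / 2) * ((B.card : ℝ) / 2)
        ≤ Real.exp (Real.log B.card / 2) * Real.exp (Real.log B.card / 2) := by
          gcongr
      _ = B.card := hsq
  nlinarith

/-- many rows of large degree -/
theorem many {n : ℕ} (N : Fin n → Finset (Fin n)) {α : ℝ} (hα : 0 < α) (hn : 1 ≤ n)
    (hsum : 2 * α * (n : ℝ) ^ 2 ≤ ((∑ b, (N b).card : ℕ) : ℝ)) :
    α * n ≤ ((univ.filter (fun b => α * n ≤ ((N b).card : ℝ))).card : ℝ) := by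
  have hn0 : (0 : ℝ) < n := by exact_mod_cast hn
  obtain ⟨B, hB⟩ : ∃ B : Finset (Fin n), B = univ.filter (fun b => α * n ≤ ((N b).card : ℝ)) :=
    ⟨_, rfl⟩
  rw [← hB]
  have h1 : ((∑ b, (N b).card : ℕ) : ℝ) ≤ B.card * n + n * (α * n) := by
    push_cast
    rw [← Finset.sum_filter_add_sum_filter_not univ (fun b => α * n ≤ ((N b).card : ℝ))]
    apply add_le_add
    · rw [← hB]
      calc ∑ b ∈ B, ((N b).card : ℝ) ≤ ∑ b ∈ B, (n : ℝ) := by
            apply Finset.sum_le_sum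
            intro b _
            exact_mod_cast card_le_n (N b)
        _ = B.card * n := by rw [Finset.sum_const, nsmul_eq_mul]
    · calc ∑ b ∈ univ.filter (fun b => ¬ (α * n ≤ ((N b).card : ℝ))), ((N b).card : ℝ)
          ≤ ∑ b ∈ univ.filter (fun b => ¬ (α * n ≤ ((N b).card : ℝ))), (α * n) := by
            apply Finset.sum_le_sum
            intro b hb
            rw [Finset.mem_filter] at hb
            exact le_of_lt (not_le.1 hb.2)
        _ = (univ.filter (fun b => ¬ (α * n ≤ ((N b).card : ℝ)))).card * (α * n) := by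
            rw [Finset.sum_const, nsmul_eq_mul]
        _ ≤ n * (α * n) := by
            apply mul_le_mul_of_nonneg_right _ (by positivity)
            exact_mod_cast card_le_n _
  have h2 : (α * n) * n ≤ (B.card : ℝ) * n := by nlinarith
  exact le_of_mul_le_mul_right h2 hn0

/-- The robust form with `c log n`. -/
theorem robust_gen (hH : S_HAUS) {R : ℕ} (hR : 1 ≤ R) {ε : ℝ} (hε : 0 < ε) :
    ∃ δ : ℝ, 0 < δ ∧ ∃ c : ℝ, 0 < c ∧ ∃ n₀ : ℕ, ∀ n : ℕ, n₀ ≤ n →
      ∀ N : Fin n → Finset (Fin n), Sep R N → ∀ M : Fin n → Finset (Fin n),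
        ((univ.image M).vcDim : ℝ) ≤ c * Real.log n →
        ((∑ b, (symmDiff (N b) (M b)).card : ℕ) : ℝ) ≤ δ * (n : ℝ) ^ 2 →
        ((∑ b, (N b).card : ℕ) : ℝ) ≤ ε * (n : ℝ) ^ 2 := by
  have hR0 : (0 : ℝ) < R := by exact_mod_cast hR
  have hα : 0 < ε / 2 := by positivity
  obtain ⟨c, hc, hloc⟩ := local_log hH hR hα
  obtain ⟨k₁, hk₁⟩ := exists_nat_ge (2 * (R : ℝ) ^ 2 / (ε / 2))
  obtain ⟨k₂, hk₂⟩ := exists_nat_ge (8 * (R : ℝ) / (ε / 2))
  obtain ⟨k₃, hk₃⟩ := exists_nat_ge (5 / (ε / 2))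
  obtain ⟨k₄, hk₄⟩ := exists_nat_ge ((1 / (ε / 2)) ^ 2)
  refine ⟨ε / 2 / (16 * R) * (ε / 2), by positivity, c / 2, by positivity,
    k₁ + k₂ + k₃ + k₄ + 1, ?_⟩
  intro n hn N hS M hv hM
  by_contra hcon
  push Not at hcon
  have hnR : ((k₁ + k₂ + k₃ + k₄ + 1 : ℕ) : ℝ) ≤ n := by exact_mod_cast hn
  push_cast at hnR
  have c1 : (0 : ℝ) ≤ k₁ := Nat.cast_nonneg _
  have c2 : (0 : ℝ) ≤ k₂ := Nat.cast_nonneg _
  have c3 : (0 : ℝ) ≤ k₃ := Nat.cast_nonneg _
  have c4 : (0 : ℝ) ≤ k₄ := Nat.cast_nonneg _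
  have hn0 : (0 : ℝ) < n := by linarith
  have hn1 : 1 ≤ n := by omega
  have g1 : 2 * (R : ℝ) ^ 2 ≤ ε / 2 * n := by
    have : 2 * (R : ℝ) ^ 2 / (ε / 2) ≤ n := by linarith
    rw [div_le_iff₀ hα] at this
    linarith
  have g2 : 8 * (R : ℝ) ≤ ε / 2 * n := by
    have : 8 * (R : ℝ) / (ε / 2) ≤ n := by linarith
    rw [div_le_iff₀ hα] at this
    linarith
  have g3 : 5 ≤ ε / 2 * n := by
    have : 5 / (ε / 2) ≤ n := by linarith
    rw [div_le_iff₀ hα] at this
    linarith
  have g4 : (1 / (ε / 2)) ^ 2 ≤ n := by linarith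
  have h1 := many N hα hn1 (by linarith)
  obtain ⟨B, hB⟩ : ∃ B : Finset (Fin n),
      B = univ.filter (fun b => ε / 2 * n ≤ ((N b).card : ℝ)) := ⟨_, rfl⟩
  rw [← hB] at h1
  have hB5 : 5 ≤ B.card := by
    have : (5 : ℝ) ≤ B.card := by linarith
    exact_mod_cast this
  have hlogB : Real.log n ≤ 2 * Real.log B.card := by
    have h2 : (n : ℝ) ≤ (B.card : ℝ) ^ 2 := by
      have h3 : 1 / (ε / 2) ≤ Real.sqrt n := by
        apply Real.le_sqrt_of_sq_le
        exact g4
      have h4 : 1 ≤ ε / 2 * Real.sqrt n := by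
        rw [div_le_iff₀ hα] at h3
        linarith
      have h5 : Real.sqrt n ≤ B.card := by
        calc Real.sqrt n = 1 * Real.sqrt n := by ring
          _ ≤ (ε / 2 * Real.sqrt n) * Real.sqrt n := by gcongr
          _ = ε / 2 * (Real.sqrt n * Real.sqrt n) := by ring
          _ = ε / 2 * n := by rw [Real.mul_self_sqrt hn0.le]
          _ ≤ B.card := h1
      calc (n : ℝ) = Real.sqrt n ^ 2 := (Real.sq_sqrt hn0.le).symm
        _ ≤ (B.card : ℝ) ^ 2 := by gcongr
    calc Real.log n ≤ Real.log ((B.card : ℝ) ^ 2) := Real.log_le_log hn0 h2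
      _ = 2 * Real.log B.card := by
          rw [Real.log_pow]
          push_cast
          ring
  have h5 := hloc n N hS g1 g2 B hB5 (by
    intro b hb
    rw [hB, Finset.mem_filter] at hb
    exact hb.2) M (by
    have h6 : ((B.image M).vcDim : ℝ) ≤ ((univ.image M).vcDim : ℝ) := by
      exact_mod_cast Finset.vcDim_mono (Finset.image_subset_image (Finset.subset_univ B))
    calc ((B.image M).vcDim : ℝ) ≤ c / 2 * Real.log n := h6.trans hv
      _ ≤ c / 2 * (2 * Real.log B.card) := by gcongr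
      _ = c * Real.log B.card := by ring)
  have h7 : ((∑ b ∈ B, (symmDiff (N b) (M b)).card : ℕ) : ℝ) ≤
      ((∑ b, (symmDiff (N b) (M b)).card : ℕ) : ℝ) := by
    exact_mod_cast Finset.sum_le_sum_of_subset (Finset.subset_univ B)
  have h8 : ε / 2 / (16 * R) * (ε / 2) * (n : ℝ) ^ 2 ≤ ε / 2 / (16 * R) * n * B.card := by
    calc ε / 2 / (16 * R) * (ε / 2) * (n : ℝ) ^ 2 = ε / 2 / (16 * R) * n * (ε / 2 * n) := by ring
      _ ≤ ε / 2 / (16 * R) * n * B.card := by gcongr
  linarith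

/-- The version for matrices of small rank. -/
theorem rank_gen (hH : S_HAUS) (hRK : S_RK) {R : ℕ} (hR : 1 ≤ R) {ε : ℝ} (hε : 0 < ε) :
    ∃ δ : ℝ, 0 < δ ∧ ∃ c : ℝ, 0 < c ∧ ∃ n₀ : ℕ, ∀ n : ℕ, n₀ ≤ n →
      ∀ N : Fin n → Finset (Fin n), Sep R N → ∀ G : Matrix (Fin n) (Fin n) ℝ,
        (G.rank : ℝ) ≤ c * Real.log n →
        ∑ b, ∑ w, (mat N b w - G b w) ^ 2 ≤ δ * (n : ℝ) ^ 2 →
        ((∑ b, (N b).card : ℕ) : ℝ) ≤ ε * (n : ℝ) ^ 2 := by
  obtain ⟨δ, hδ, c, hc, n₀, hN⟩ := robust_gen hH hR hε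
  refine ⟨δ / 4, by positivity, c / 2, by positivity, max n₀ (⌈Real.exp (2 / c)⌉₊ + 1), ?_⟩
  intro n hn N hS G hr hG
  have hnN : n₀ ≤ n := le_trans (le_max_left _ _) hn
  have hne : ⌈Real.exp (2 / c)⌉₊ + 1 ≤ n := le_trans (le_max_right _ _) hn
  have h1 : Real.exp (2 / c) ≤ n := by
    have h3 := Nat.le_ceil (Real.exp (2 / c))
    have h4 : ((⌈Real.exp (2 / c)⌉₊ : ℕ) : ℝ) + 1 ≤ n := by exact_mod_cast hne
    linarith
  have hn0 : (0 : ℝ) < n := lt_of_lt_of_le (Real.exp_pos _) h1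
  have h2 : 2 / c ≤ Real.log n := by
    rw [Real.le_log_iff_exp_le hn0]
    exact h1
  have h3 : 1 ≤ c / 2 * Real.log n := by
    rw [div_le_iff₀ hc] at h2
    linarith
  refine hN n hnN N hS (fun b => univ.filter (fun w => (1 / 2 : ℝ) ≤ G b w)) ?_ ?_
  · have h4 := hRK n G
    have h5 : (((univ.image (fun b : Fin n =>
        univ.filter (fun w : Fin n => (1 / 2 : ℝ) ≤ G b w))).vcDim : ℕ) : ℝ) ≤ G.rank + 1 := by
      exact_mod_cast h4
    calc _ ≤ (G.rank : ℝ) + 1 := h5
      _ ≤ c / 2 * Real.log n + c / 2 * Real.log n := by linarith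
      _ = c * Real.log n := by ring
  · push_cast
    have h6 : ∀ b : Fin n, ((symmDiff (N b) (univ.filter (fun w => (1 / 2 : ℝ) ≤ G b w))).card
        : ℝ) ≤ 4 * ∑ w, (mat N b w - G b w) ^ 2 := by
      intro b
      have h7 : ((symmDiff (N b) (univ.filter (fun w => (1 / 2 : ℝ) ≤ G b w))).card : ℝ) =
          ∑ w, if w ∈ symmDiff (N b) (univ.filter (fun w => (1 / 2 : ℝ) ≤ G b w)) then
            (1 : ℝ) else 0 := by
        rw [Finset.sum_ite_mem, Finset.univ_inter, Finset.sum_const, nsmul_eq_mul, mul_one]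
      rw [h7, Finset.mul_sum]
      apply Finset.sum_le_sum
      intro w _
      by_cases h8 : w ∈ N b
      · by_cases h9 : (1 / 2 : ℝ) ≤ G b w
        · have : w ∉ symmDiff (N b) (univ.filter (fun w => (1 / 2 : ℝ) ≤ G b w)) := by
            simp only [Finset.mem_symmDiff, Finset.mem_filter, Finset.mem_univ, true_and]
            tauto
          rw [if_neg this]
          positivity
        · have h10 : w ∈ symmDiff (N b) (univ.filter (fun w => (1 / 2 : ℝ) ≤ G b w)) := by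
            simp only [Finset.mem_symmDiff, Finset.mem_filter, Finset.mem_univ, true_and]
            tauto
          rw [if_pos h10]
          unfold mat
          rw [if_pos h8]
          push Not at h9
          nlinarith
      · by_cases h9 : (1 / 2 : ℝ) ≤ G b w
        · have h10 : w ∈ symmDiff (N b) (univ.filter (fun w => (1 / 2 : ℝ) ≤ G b w)) := by
            simp only [Finset.mem_symmDiff, Finset.mem_filter, Finset.mem_univ, true_and]
            tauto
          rw [if_pos h10]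
          unfold mat
          rw [if_neg h8]
          nlinarith
        · have : w ∉ symmDiff (N b) (univ.filter (fun w => (1 / 2 : ℝ) ≤ G b w)) := by
            simp only [Finset.mem_symmDiff, Finset.mem_filter, Finset.mem_univ, true_and]
            tauto
          rw [if_neg this]
          positivity
    calc ∑ b, ((symmDiff (N b) (univ.filter (fun w => (1 / 2 : ℝ) ≤ G b w))).card : ℝ)
        ≤ ∑ b, 4 * ∑ w, (mat N b w - G b w) ^ 2 := Finset.sum_le_sum (fun b _ => h6 b)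
      _ = 4 * ∑ b, ∑ w, (mat N b w - G b w) ^ 2 := by rw [Finset.mul_sum]
      _ ≤ 4 * (δ / 4 * (n : ℝ) ^ 2) := by linarith
      _ = δ * (n : ℝ) ^ 2 := by ring

/-- Power saving. -/
theorem power_gen (hH : S_HAUS) (hY : S_DYA) {n R d : ℕ} (hR : 1 ≤ R) (hn : 1 ≤ n)
    {N : Fin n → Finset (Fin n)} (hS : Sep R N) (hd : 2 ≤ d) (hv : (univ.image N).vcDim ≤ d) :
    ((∑ b, (N b).card : ℕ) : ℝ) ≤ 240 * (R : ℝ) ^ 2 * (n : ℝ) ^ (2 - 1 / (d : ℝ)) := by
  apply hY n d R (fun b => (N b).card) hn hd hR (fun b => card_le_n _)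
  intro r hr hrn
  obtain ⟨B, hB⟩ : ∃ B : Finset (Fin n), B = univ.filter (fun b => 2 * R * r ≤ (N b).card) :=
    ⟨_, rfl⟩
  rw [← hB]
  have hdist : ∀ b ∈ B, ∀ b' ∈ B, b ≠ b' → r ≤ (symmDiff (N b) (N b')).card := by
    intro b hb b' hb' hne
    rw [hB, Finset.mem_filter] at hb hb'
    have h1 := hS b b' hne
    have h3 : R * (2 * r) ≤ R * ((symmDiff (N b) (N b')).card + R) := by
      calc R * (2 * r) = 2 * R * r := by ring
        _ ≤ (N b).card := hb.2
        _ ≤ (N b).card + (N b').card := Nat.le_add_right _ _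
        _ ≤ _ := h1
        _ = _ := by ring
    have h4 := Nat.le_of_mul_le_mul_left h3 (by omega)
    omega
  have hinj : Set.InjOn N B := by
    intro b hb b' hb' h
    by_contra hne
    have h5 := hdist b hb b' hb' hne
    rw [h, symmDiff_self] at h5
    simp at h5
    omega
  have hcard : (B.image N).card = B.card := Finset.card_image_of_injOn hinj
  have hpack : (B.card : ℝ) ≤ (22 * n / r) ^ (B.image N).vcDim := by
    rw [← hcard]
    have h6 := hH (Fin n) (B.image N) r (by omega) ?_ (by simpa using hrn)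
    · simpa using h6
    · intro A hA A' hA' hne
      obtain ⟨b, hb, rfl⟩ := Finset.mem_image.1 hA
      obtain ⟨b', hb', rfl⟩ := Finset.mem_image.1 hA'
      exact hdist b hb b' hb' (fun h => hne (by rw [h]))
  refine hpack.trans ?_
  have hr0 : (0 : ℝ) < r := by exact_mod_cast (by omega : 0 < r)
  have hone : (1 : ℝ) ≤ 22 * n / r := by
    rw [le_div_iff₀ hr0]
    have : (r : ℝ) ≤ n := by exact_mod_cast hrn
    linarith
  refine pow_le_pow_right₀ hone (le_trans ?_ hv)
  exact Finset.vcDim_mono (Finset.image_subset_image (Finset.subset_univ B))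

end Pool.Agent.W842.BVR
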